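import Pool.Agent.Q210.AB.CntA

/-!
Counting functions with bounded poles (helper210, job of helper41).
-/

set_option autoImplicit false
set_option linter.overlappingInstances false
set_option linter.unusedSectionVars false

open FF MvPolynomial IntermediateField Pool.Agent.W603.LV Pool.Agent.W619.PQ
open Pool.Agent.W619.TW Pool.Agent.TH122.AB Pool.Agent.TH756.PN

namespace Pool.Agent.Q210.AB

open Pool.Agent.W602.GT (Divisorial)
open Pool.Agent.Y169.CH (tr tr_ge tr_fix)
open scoped IntermediateField.algebraAdjoinAdjoin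

theorem ext_basis {K : Type} [Field K] [Algebra ℂ K] {n h : ℕ}
    (htr : Algebra.trdeg ℂ K = ((n + 1 : ℕ) : Cardinal)) {y : Fin h → K}
    (hind : AlgebraicIndependent ℂ y) :
    ∃ (Z : Fin (n + 1) → K) (σ : Fin h → Fin (n + 1)), Function.Injective σ ∧
      IsTranscendenceBasis ℂ Z ∧ ∀ i, Z (σ i) = y i := by
  classical
  have hs : AlgebraicIndepOn ℂ id (Set.range y) := hind.coe_range
  obtain ⟨t, hst, ht⟩ := exists_isTranscendenceBasis_superset hs
  have hc : Cardinal.mk t = Cardinal.mk (Fin (n + 1)) := by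
    rw [ht.cardinalMk_eq_trdeg, htr, Cardinal.mk_fin]
  obtain ⟨e⟩ := Cardinal.eq.1 hc
  refine ⟨fun j => (e.symm j : K), fun i => e ⟨y i, hst ⟨i, rfl⟩⟩, ?_, ?_, ?_⟩
  · intro i j hij
    have h1 := congrArg Subtype.val (e.injective hij)
    exact hind.injective h1
  · exact (isTranscendenceBasis_equiv e.symm (R := ℂ) (f := ((↑) : t → K))).2 ht
  · intro i
    simp

theorem exists_a {K : Type} [Field K] [Algebra ℂ K] {h r : ℕ} {y : Fin h → K} {g : Fin r → K}
    (halg : ∀ j, IsAlgebraic (IntermediateField.adjoin ℂ (Set.range y)) (g j)) :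
    ∃ p : MvPolynomial (Fin h) ℂ, aeval y p ≠ 0 ∧
      ∀ j, IsIntegral (Algebra.adjoin ℂ (Set.range y)) (aeval y p * g j) := by
  classical
  have h1 : ∀ j, ∃ a : Algebra.adjoin ℂ (Set.range y), a ≠ 0 ∧
      IsIntegral (Algebra.adjoin ℂ (Set.range y)) (a • g j) := by
    intro j
    have h2 : IsAlgebraic (Algebra.adjoin ℂ (Set.range y)) (g j) :=
      (IsFractionRing.isAlgebraic_iff (Algebra.adjoin ℂ (Set.range y))
        (IntermediateField.adjoin ℂ (Set.range y)) K).2 (halg j)
    obtain ⟨a, ha, hint⟩ := h2.exists_integral_multiple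
    exact ⟨a, ha, hint⟩
  choose a ha hint using h1
  have h2 : ((∏ j, a j : Algebra.adjoin ℂ (Set.range y)) : K) ∈
      (aeval y : MvPolynomial (Fin h) ℂ →ₐ[ℂ] K).range := by
    rw [← Algebra.adjoin_range_eq_range_aeval]
    exact (∏ j, a j).2
  obtain ⟨p, hp⟩ := h2
  have hp' : aeval y p = ((∏ j, a j : Algebra.adjoin ℂ (Set.range y)) : K) := hp
  refine ⟨p, ?_, fun j => ?_⟩
  · rw [hp']
    intro h0
    have h3 : (∏ j, a j : Algebra.adjoin ℂ (Set.range y)) = 0 := Subtype.ext h0
    exact Finset.prod_ne_zero_iff.2 (fun j _ => ha j) h3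
  · rw [hp', ← Finset.mul_prod_erase Finset.univ a (Finset.mem_univ j)]
    have h4 : ((a j * ∏ i ∈ Finset.univ.erase j, a i : Algebra.adjoin ℂ (Set.range y)) : K) * g j =
        (∏ i ∈ Finset.univ.erase j, a i) • (a j • g j) := by
      rw [Algebra.smul_def, Algebra.smul_def]
      change ((a j : K) * ((∏ i ∈ Finset.univ.erase j, a i : Algebra.adjoin ℂ (Set.range y)) : K)) *
        g j = ((∏ i ∈ Finset.univ.erase j, a i : Algebra.adjoin ℂ (Set.range y)) : K) *
          ((a j : K) * g j)
      ring
    rw [h4]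
    exact (hint j).smul _

theorem reg_aeval {K : Type} [Field K] [Algebra ℂ K] (P : Place ℂ K) {h : ℕ} {y : Fin h → K}
    (hy : ∀ i, P.Reg (y i)) (R : MvPolynomial (Fin h) ℂ) : P.Reg (aeval y R) := by
  induction R using MvPolynomial.induction_on with
  | C c =>
    rw [MvPolynomial.aeval_C]
    exact P.reg_const c
  | add R1 R2 h1 h2 =>
    rw [map_add]
    exact P.reg_add h1 h2
  | mul_X R i h1 =>
    rw [map_mul, aeval_X]
    exact P.reg_mul h1 (hy i)

theorem cnt : Pool.Agent.Q41.AB.S_Cnt := by
  intro K _ _ _ n r h htr g x hind halg S c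
  classical
  obtain ⟨Z, σ, hσ, hZ, hZσ⟩ := ext_basis htr hind
  obtain ⟨p, hp0, hpint⟩ := exists_a halg
  obtain ⟨K', _, _, _, _, _, G, _, _, _, _, _, _, _, _, _, _, _, _, X, -, hX, -, hXZ, hXb⟩ :=
    Pool.Agent.Y169.CH.exists_closure2 hZ hZ le_rfl (Pool.Agent.Y199.NN.fin_over' Z hZ)
  have hGal : IsGaloisGroup G (fixedField G) K' := isGaloisGroup_fixed G
  have hfdG : FiniteDimensional (fixedField G) K' := IsGaloisGroup.finiteDimensional G _ K'
  let b := Module.finBasis (fixedField G) K'
  obtain ⟨b', hb'⟩ := Pool.Agent.Q57.GM.exists_dual_tr G b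
  -- blocks
  obtain ⟨B1, hB1⟩ : ∃ B1 : Finset (Fin (n + 1)), B1 = Finset.univ.image σ := ⟨_, rfl⟩
  have hcard : B1.card = h := by
    rw [hB1, Finset.card_image_of_injective _ hσ, Finset.card_univ, Fintype.card_fin]
  have hB1σ : ∀ i, σ i ∈ B1 := fun i => by
    rw [hB1]
    exact Finset.mem_image_of_mem _ (Finset.mem_univ i)
  let pr : Fin 2 ⊕ Fin (n + 1) → Fin 2 := Sum.elim id (fun j => if j ∈ B1 then 0 else 1)
  let y : Fin 2 ⊕ Fin (n + 1) → K' := Sum.elim (fun _ => 1) (fun j => (X j : K'))
  obtain ⟨B, hBdef⟩ : ∃ B : Finset K', B = S.image (algebraMap K K') ∪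
      (S.image (fun s => algebraMap K K' s⁻¹) ∪ (Finset.univ.image (fun i => b i) ∪
        (Finset.univ.image (fun j => algebraMap K K' (g j)) ∪ {1}))) := ⟨_, rfl⟩
  have hBS : ∀ s ∈ S, algebraMap K K' s ∈ B ∧ algebraMap K K' s⁻¹ ∈ B := by
    intro s hs
    rw [hBdef]
    constructor
    · exact Finset.mem_union_left _ (Finset.mem_image_of_mem _ hs)
    · exact Finset.mem_union_right _ (Finset.mem_union_left _
        (Finset.mem_image_of_mem (fun s => algebraMap K K' s⁻¹) hs))
  have hBb : ∀ i, b i ∈ B := by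
    intro i
    rw [hBdef]
    exact Finset.mem_union_right _ (Finset.mem_union_right _ (Finset.mem_union_left _
      (Finset.mem_image_of_mem _ (Finset.mem_univ i))))
  have hBg : ∀ j, algebraMap K K' (g j) ∈ B := by
    intro j
    rw [hBdef]
    exact Finset.mem_union_right _ (Finset.mem_union_right _ (Finset.mem_union_right _
      (Finset.mem_union_left _ (Finset.mem_image_of_mem _ (Finset.mem_univ j)))))
  have hB1' : (1 : K') ∈ B := by
    rw [hBdef]
    exact Finset.mem_union_right _ (Finset.mem_union_right _ (Finset.mem_union_right _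
      (Finset.mem_union_right _ (Finset.mem_singleton_self _))))
  have halgy : Algebra.IsAlgebraic (IntermediateField.adjoin ℂ (Set.range y)) K' := by
    have h1 : Algebra.IsAlgebraic (IntermediateField.adjoin ℂ (Set.range fun j => (X j : K'))) K' :=
      hXb.isAlgebraic_field
    have h2 : IntermediateField.adjoin ℂ (Set.range fun j => (X j : K')) ≤
        IntermediateField.adjoin ℂ (Set.range y) := by
      apply IntermediateField.adjoin.mono
      rintro _ ⟨j, rfl⟩
      exact ⟨Sum.inr j, rfl⟩
    refine ⟨fun z => ?_⟩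
    obtain ⟨P, hP, hPz⟩ := h1.isAlgebraic z
    refine ⟨P.map (IntermediateField.inclusion h2).toRingHom, ?_, ?_⟩
    · rw [Ne, Polynomial.map_eq_zero_iff]
      · exact hP
      · exact (IntermediateField.inclusion h2).toRingHom.injective
    · rw [Polynomial.aeval_def, Polynomial.eval₂_map]
      rw [Polynomial.aeval_def] at hPz
      exact hPz
  obtain ⟨D, Q, -, hQ0, hden⟩ := Pool.Agent.Q95.AB.den pr Sum.inl (fun l => rfl) y (fun l => rfl)
    halgy B
  -- the denominators as elements of the fixed field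
  obtain ⟨Q', hQ'⟩ : ∃ Q' : MvPolynomial (Fin (n + 1)) ℂ,
      Q' = aeval (Sum.elim (fun _ : Fin 2 => 1) MvPolynomial.X) Q := ⟨_, rfl⟩
  have hcoe : ∀ P : MvPolynomial (Fin (n + 1)) ℂ, ((aeval X P : fixedField G) : K') =
      aeval (fun j => (X j : K')) P := fun P =>
    (MvPolynomial.aeval_algebraMap_apply K' X P).symm
  have hQX : ((aeval X Q' : fixedField G) : K') = aeval y Q := by
    rw [hcoe, hQ', MvPolynomial.comp_aeval_apply]
    congr 1
    refine MvPolynomial.algHom_ext fun i => ?_
    rcases i with l | j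
    · simp [y]
    · simp [y]
  have hQX0 : aeval X Q' ≠ 0 := by
    intro h0
    apply hQ0
    rw [← hQX, h0]
    rfl
  have hQ'0 : Q' ≠ 0 := by
    rintro rfl
    exact hQX0 (map_zero _)
  have hσX : ∀ i, algebraMap (fixedField G) K (X (σ i)) = g (x i) := fun i => by
    rw [hXZ, hZσ]
  obtain ⟨a, ha⟩ : ∃ a : MvPolynomial (Fin (n + 1)) ℂ, a = rename σ p := ⟨_, rfl⟩
  have haK : algebraMap (fixedField G) K (aeval X a) = aeval (fun i => g (x i)) p := by
    rw [← MvPolynomial.aeval_algebraMap_apply, ha, MvPolynomial.aeval_rename]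
    congr 1
    refine MvPolynomial.algHom_ext fun i => ?_
    rw [aeval_X, aeval_X]
    exact hσX i
  have ha0 : aeval X a ≠ 0 := by
    intro h0
    apply hp0
    rw [← haK, h0, map_zero]
  have ha00 : a ≠ 0 := by
    rintro rfl
    exact ha0 (map_zero _)
  -- the zero bound
  have hE0 : ∀ v : Place ℂ (fixedField G), (∀ i, 0 ≤ v.ord (X (σ i))) →
      ∀ (w : Place ℂ K') (e : ℕ), Over w v e → ∀ j,
      (e : ℤ) * 0 ≤ min 0 (w.ord (algebraMap K K' (g j))) +
        w.ord ((aeval X a : fixedField G) : K') := by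
    intro v hv w e hw j
    obtain ⟨P, e1, e2, hP1, hP2, -⟩ := exists_restr (K := K) hw
    have he1 : (0 : ℤ) ≤ e1 := Int.natCast_nonneg _
    have h1 : ∀ R : MvPolynomial (Fin h) ℂ, P.Reg (aeval (fun i => g (x i)) R) := by
      intro R
      refine reg_aeval P (fun i => ?_) R
      right
      rw [← hσX, hP2.2]
      exact mul_nonneg (Int.natCast_nonneg _) (hv i)
    have h2 : P.Reg (aeval (fun i => g (x i)) p * g j) := reg_of_int h1 (hpint j)
    have h3 : P.Reg (aeval (fun i => g (x i)) p) := h1 p
    have h4 : 0 ≤ min 0 (P.ord (g j)) + P.ord (aeval (fun i => g (x i)) p) := by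
      have h5 : 0 ≤ P.ord (aeval (fun i => g (x i)) p) := h3.resolve_left hp0
      by_cases hg : g j = 0
      · rw [hg, P.ord_zero, min_self]
        linarith
      · have h6 := h2.resolve_left (mul_ne_zero hp0 hg)
        rw [P.ord_mul hp0 hg] at h6
        rcases min_cases (0 : ℤ) (P.ord (g j)) with h | h <;> linarith
    have h7 : w.ord ((aeval X a : fixedField G) : K') =
        e1 * P.ord (aeval (fun i => g (x i)) p) := by
      rw [← haK, ← hP1.2]
      congr 1
      exact IsScalarTower.algebraMap_apply (fixedField G) K K' _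
    have h8 : min 0 ((e1 : ℤ) * P.ord (g j)) = e1 * min 0 (P.ord (g j)) := by
      rw [mul_min_of_nonneg _ _ he1, mul_zero]
    rw [mul_zero, h7, hP1.2, h8, ← mul_add]
    exact mul_nonneg he1 h4
  -- the denominators
  have hA : ∀ (v : Place ℂ (fixedField G)) (β : Fin 2 → ℤ), (∀ l, β l ≤ 0) →
      (∀ j, β (if j ∈ B1 then 0 else 1) ≤ v.ord (X j)) →
      ∀ (w : Place ℂ K') (e : ℕ), Over w v e → ∀ z ∈ B, z ≠ 0 →
      (e : ℤ) * ∑ l, (D l : ℤ) * β l ≤ w.ord (z * ((aeval X Q' : fixedField G) : K')) := by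
    intro v β hβ0 hβ w e hw z hz hz0
    have h1 := hden w (fun l => e * β l) (by
      rintro (l | j) hj
      · change (e : ℤ) * β l ≤ w.ord 1
        rw [w.ord_one]
        exact mul_nonpos_of_nonneg_of_nonpos (Int.natCast_nonneg _) (hβ0 l)
      · change (e : ℤ) * β (if j ∈ B1 then 0 else 1) ≤ w.ord (X j : K')
        have h2 : w.ord (X j : K') = e * v.ord (X j) := hw.2 (X j)
        rw [h2]
        exact mul_le_mul_of_nonneg_left (hβ j) (Int.natCast_nonneg _)) z hz hz0
    rw [hQX]
    refine le_trans (le_of_eq ?_) h1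
    rw [Finset.mul_sum]
    exact Finset.sum_congr rfl fun l _ => by ring
  -- the traces are polynomials
  have hmain : ∀ (q : ℕ) (f : K), (∀ P : Place ℂ K, Divisorial (n + 1) P → f = 0 ∨ ∃ i,
        (q : ℤ) * min 0 (P.ord (g i)) - c * ∑ s ∈ S, |P.ord s| ≤ P.ord f) →
      ∀ i, ∃ P : MvPolynomial (Fin (n + 1)) ℂ,
        ((aeval X P : fixedField G) : K') = tr G (algebraMap K K' f *
          ((aeval X a : fixedField G) : K') ^ q *
            ((aeval X Q' : fixedField G) : K') ^ (c * S.card + 1) * b i) ∧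
        ∀ m ∈ P.support, m ∈ exps B1 (q * (D 0 + degB B1 a) + (c * S.card + 1) * D 0)
          ((c * S.card + 1) * D 1) := by
    intro q f hf i
    obtain ⟨t, ht⟩ : ∃ t : fixedField G, (t : K') = tr G (algebraMap K K' f *
          ((aeval X a : fixedField G) : K') ^ q *
            ((aeval X Q' : fixedField G) : K') ^ (c * S.card + 1) * b i) :=
      ⟨⟨_, tr_fix G _⟩, rfl⟩
    obtain ⟨P, hP⟩ : ∃ P : MvPolynomial (Fin (n + 1)) ℂ, t = aeval X P := by
      refine poly_of_reg hX fun p' hp' v hv1 hv2 => ?_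
      have hXj : ∀ j, 0 ≤ v.ord (X j) := by
        intro j
        have := (hv2 (MvPolynomial.X j) (X_ne_zero _)).1
        rwa [aeval_X] at this
      have h1 := trace_ge (K := K) (fun P e hPe => div_adic hX hp' hv2 hPe) hf ha0 hQX0
        (hE0 v fun i => hXj _) (hA v 0 (fun l => le_refl _) fun j => hXj j) hBS hB1' (hBb i) t ht
      rw [Finset.sum_eq_zero fun l _ => by rw [Pi.zero_apply, mul_zero], mul_zero, mul_zero,
        add_zero] at h1
      exact h1
    refine ⟨P, by rw [← hP, ht], fun m hm => ?_⟩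
    have hP0 : P ≠ 0 := by
      rintro rfl
      simp at hm
    have ht0 : t ≠ 0 := by
      rw [hP]
      exact hX.ne hP0
    refine mem_exps fun j => ⟨fun hj => ?_, fun hj => ?_⟩
    · obtain ⟨v0, hv0, hdiv⟩ := exists_inf K hX (B := B1) hj
      have hA1 := hA v0 ![-1, 0] (by
        intro l
        fin_cases l <;> simp) (by
        intro j
        have h3 := hv0 (MvPolynomial.X j) (X_ne_zero _)
        rw [aeval_X] at h3
        rw [h3]
        split_ifs with hj
        · rw [degB_X_mem hj]
          simp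
        · rw [degB_X_not hj]
          simp)
      have hsum : ∑ l : Fin 2, (D l : ℤ) * (![-1, 0] : Fin 2 → ℤ) l = - (D 0 : ℤ) := by
        rw [Fin.sum_univ_two]
        simp
      rw [hsum] at hA1
      have h1 := trace_ge (K := K) hdiv hf ha0 hQX0 (E := - ((D 0 : ℤ) + degB B1 a))
        (A := - (D 0 : ℤ)) (by
          intro w e hw j
          have he0 : (0 : ℤ) ≤ e := Int.natCast_nonneg _
          have h2 : w.ord ((aeval X a : fixedField G) : K') = e * v0.ord (aeval X a) := hw.2 _
          have h3 : w.ord ((aeval X Q' : fixedField G) : K') = e * v0.ord (aeval X Q') := hw.2 _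
          rw [hv0 a ha00] at h2
          rw [hv0 Q' hQ'0] at h3
          have h4 : - ((e : ℤ) * D 0) ≤ w.ord (algebraMap K K' (g j)) := by
            by_cases hg : g j = 0
            · rw [hg, map_zero, w.ord_zero]
              have : (0 : ℤ) ≤ e * D 0 := mul_nonneg he0 (Int.natCast_nonneg _)
              linarith
            · have hg' : algebraMap K K' (g j) ≠ 0 := by simpa using hg
              have h5 := hA1 w e hw _ (hBg j) hg'
              have hQ'' : ((aeval X Q' : fixedField G) : K') ≠ 0 := by simpa using hQX0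
              rw [w.ord_mul hg' hQ'', h3] at h5
              have h6 : (0 : ℤ) ≤ e * degB B1 Q' := mul_nonneg he0 (Int.natCast_nonneg _)
              linarith
          have h7 : (0 : ℤ) ≤ e * D 0 := mul_nonneg he0 (Int.natCast_nonneg _)
          have h8 : - ((e : ℤ) * D 0) ≤ min 0 (w.ord (algebraMap K K' (g j))) :=
            le_min (by linarith) h4
          rw [h2]
          linarith) hA1 hBS hB1' (hBb i) t ht
      have h2 := h1.resolve_left ht0
      rw [hP, hv0 P hP0] at h2
      have h3 : m j ≤ ∑ b ∈ B1, m b :=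
        Finset.single_le_sum (f := fun b => m b) (fun _ _ => Nat.zero_le _) hj
      have h4 := h3.trans (sum_le_degB hm)
      have h5 : (degB B1 P : ℤ) ≤ q * (D 0 + degB B1 a) + (c * S.card + 1) * D 0 := by linarith
      have h6 : degB B1 P ≤ q * (D 0 + degB B1 a) + (c * S.card + 1) * D 0 := by exact_mod_cast h5
      exact h4.trans h6
    · obtain ⟨v0, hv0, hdiv⟩ := exists_inf K hX (B := B1ᶜ) (Finset.mem_compl.2 hj)
      have hA1 := hA v0 ![0, -1] (by
        intro l
        fin_cases l <;> simp) (by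
        intro j
        have h3 := hv0 (MvPolynomial.X j) (X_ne_zero _)
        rw [aeval_X] at h3
        rw [h3]
        split_ifs with hj
        · rw [degB_X_not (by rw [Finset.mem_compl]; exact fun h => h hj)]
          simp
        · rw [degB_X_mem (Finset.mem_compl.2 hj)]
          simp)
      have hsum : ∑ l : Fin 2, (D l : ℤ) * (![0, -1] : Fin 2 → ℤ) l = - (D 1 : ℤ) := by
        rw [Fin.sum_univ_two]
        simp
      rw [hsum] at hA1
      have h1 := trace_ge (K := K) hdiv hf ha0 hQX0 (E := 0)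
        (A := - (D 1 : ℤ)) (hE0 v0 fun i => by
          have h3 := hv0 (MvPolynomial.X (σ i)) (X_ne_zero _)
          rw [aeval_X] at h3
          rw [h3, degB_X_not (by rw [Finset.mem_compl]; exact fun h => h (hB1σ i))]
          simp) hA1 hBS hB1' (hBb i) t ht
      have h2 := h1.resolve_left ht0
      rw [hP, hv0 P hP0] at h2
      have h3 : m j ≤ ∑ b ∈ B1ᶜ, m b :=
        Finset.single_le_sum (f := fun b => m b) (fun _ _ => Nat.zero_le _) (Finset.mem_compl.2 hj)
      have h4 := h3.trans (sum_le_degB hm)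
      have h5 : (degB B1ᶜ P : ℤ) ≤ (c * S.card + 1) * D 1 := by linarith
      have h6 : degB B1ᶜ P ≤ (c * S.card + 1) * D 1 := by exact_mod_cast h5
      exact h4.trans h6
  -- the count
  refine ⟨Module.finrank (fixedField G) K' *
    ((D 0 + degB B1 a + (c * S.card + 1) * D 0 + 1) ^ h *
      ((c * S.card + 1) * D 1 + 1) ^ (n + 1 - h)), fun q M f hfl hf => ?_⟩
  choose P hP1 hP2 using fun l => hmain q (f l) (hf l)
  have hPl : LinearIndependent ℂ P := by
    rw [Fintype.linearIndependent_iff] at hfl ⊢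
    intro u hu
    refine hfl u ?_
    have h1 : ∀ i, ∑ l, u l • P l i = 0 := by
      intro i
      have := congrFun hu i
      rwa [Finset.sum_apply] at this
    have h2 : algebraMap K K' (∑ l, u l • f l) * (((aeval X a : fixedField G) : K') ^ q *
            ((aeval X Q' : fixedField G) : K') ^ (c * S.card + 1)) = 0 := by
      rw [map_sum, Finset.sum_mul]
      have h3 : ∀ l, algebraMap K K' (u l • f l) * (((aeval X a : fixedField G) : K') ^ q *
            ((aeval X Q' : fixedField G) : K') ^ (c * S.card + 1)) =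
          ∑ i, (u l • ((aeval X (P l i) : fixedField G) : K')) * b' i := by
        intro l
        have h4 := hb' (algebraMap K K' (f l) * ((aeval X a : fixedField G) : K') ^ q *
            ((aeval X Q' : fixedField G) : K') ^ (c * S.card + 1))
        have h5 : algebraMap K K' (u l • f l) = u l • algebraMap K K' (f l) := by
          rw [Algebra.smul_def, Algebra.smul_def, map_mul,
            ← IsScalarTower.algebraMap_apply ℂ K K']
        rw [h5, smul_mul_assoc, ← mul_assoc, h4, Finset.smul_sum]
        refine Finset.sum_congr rfl fun i _ => ?_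
        rw [hP1, smul_mul_assoc]
      simp only [h3]
      rw [Finset.sum_comm]
      refine Finset.sum_eq_zero fun i _ => ?_
      rw [← Finset.sum_mul]
      have h6 : ∑ l, u l • ((aeval X (P l i) : fixedField G) : K') =
          ((aeval X (∑ l, u l • P l i) : fixedField G) : K') := by
        rw [hcoe, map_sum]
        refine Finset.sum_congr rfl fun l _ => ?_
        rw [hcoe, map_smul]
      rw [h6, h1, map_zero]
      simp
    have h3 : algebraMap K K' (∑ l, u l • f l) = 0 := by
      refine (mul_eq_zero.1 h2).resolve_right ?_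
      refine mul_ne_zero (pow_ne_zero _ ?_) (pow_ne_zero _ ?_)
      · simpa using ha0
      · simpa using hQX0
    exact (map_eq_zero (algebraMap K K')).1 h3
  have h1 := count (R := Module.finrank (fixedField G) K') hPl hP2
  rw [hcard] at h1
  refine h1.trans ?_
  rw [mul_assoc, mul_right_comm (_ ^ h)]
  refine Nat.mul_le_mul_left _ (Nat.mul_le_mul_right _ ?_)
  rw [← mul_pow]
  refine Nat.pow_le_pow_left ?_ _
  nlinarith [Nat.zero_le (q * ((c * S.card + 1) * D 0))]

end Pool.Agent.Q210.AB
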