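import Pool.Agent.Q41.AB.Stm3
import Pool.Agent.Q95.AB.Den
import Pool.Agent.TH756.PN.NuP
import Pool.Agent.Y169.CH.Clo
import Pool.Agent.Y169.CH.Tr
import Pool.Agent.Y199.NN.NegA1
import Pool.Agent.Q57.GM.Str
import Pool.Agent.TH122.AB.Fd

/-!
Counting functions with bounded poles: tools (helper210, job of helper41).
-/

set_option autoImplicit false
set_option linter.overlappingInstances false
set_option linter.unusedSectionVars false

open FF MvPolynomial IntermediateField Pool.Agent.W603.LV Pool.Agent.W619.PQ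
open Pool.Agent.W619.TW Pool.Agent.TH122.AB Pool.Agent.TH756.PN

namespace Pool.Agent.Q210.AB

open Pool.Agent.W602.GT (Divisorial)
open Pool.Agent.Y169.CH (tr tr_ge tr_fix)

section inf

variable {k : Type} [Field k] [CharZero k] {K0 K : Type} [Field K0] [Field K] [Algebra k K0]
  [Algebra k K] [Algebra K0 K] [IsScalarTower k K0 K] {n : ℕ}

/-- the place at infinity in the variables of `B` -/
theorem exists_inf (K : Type) [Field K] [Algebra k K] [Algebra K0 K] [IsScalarTower k K0 K]
    {X : Fin (n + 1) → K0} (hX : Gens (k := k) X) {B : Finset (Fin (n + 1))} {c : Fin (n + 1)}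
    (hB : c ∈ B) :
    ∃ v0 : Place k K0, (∀ P : MvPolynomial (Fin (n + 1)) k, P ≠ 0 →
        v0.ord (aeval X P) = - (degB B P : ℤ)) ∧
      ∀ (P : Place k K) (e : ℕ), Over P v0 e → Divisorial (n + 1) P := by
  classical
  let X' : Fin (n + 1) → K0 := fun j =>
    if j = c then (X c)⁻¹ else if j ∈ B then X j / X c else X j
  have hf : Flip B c X X' := by
    refine ⟨if_pos rfl, fun j hj hj0 => ?_, fun j hj => ?_⟩
    · change (if j = c then (X c)⁻¹ else if j ∈ B then X j / X c else X j) = _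
      rw [if_neg hj0, if_pos hj]
    · change (if j = c then (X c)⁻¹ else if j ∈ B then X j / X c else X j) = _
      rw [if_neg (by rintro rfl; exact hj hB), if_neg hj]
  have hX' : Gens (k := k) X' := flip_gens hB hX hf
  have hirr : Irreducible (MvPolynomial.X c : MvPolynomial (Fin (n + 1)) k) :=
    (MvPolynomial.X_prime (R := k) (i := c)).irreducible
  obtain ⟨v0, hv1, hv0⟩ := exists_adic hX' hirr
  rw [aeval_X] at hv1
  exact ⟨v0, fun P hP => ord_deg hB hX hf hv1 hv0 hP, fun P e h => div_adic hX' hirr hv0 h⟩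

end inf

section deg

variable {k : Type} [Field k] {n : ℕ}

theorem degB_X_mem {B : Finset (Fin (n + 1))} {c : Fin (n + 1)} (hc : c ∈ B) [Nontrivial k] :
    degB B (MvPolynomial.X c : MvPolynomial (Fin (n + 1)) k) = 1 := by
  unfold degB
  rw [support_X, Finset.sup_singleton, Finset.sum_eq_single c]
  · simp
  · intro b _ hb
    rw [Finsupp.single_apply, if_neg (Ne.symm hb)]
  · intro h
    exact absurd hc h

theorem degB_X_not {B : Finset (Fin (n + 1))} {c : Fin (n + 1)} (hc : c ∉ B) [Nontrivial k] :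
    degB B (MvPolynomial.X c : MvPolynomial (Fin (n + 1)) k) = 0 := by
  unfold degB
  rw [support_X, Finset.sup_singleton]
  refine Finset.sum_eq_zero fun b hb => ?_
  rw [Finsupp.single_apply, if_neg]
  rintro rfl
  exact hc hb

end deg

section trace

variable {K K' : Type} [Field K] [Field K'] [Algebra ℂ K] [Algebra ℂ K'] [Algebra K K']
  [IsScalarTower ℂ K K'] {G : Subgroup (K' ≃ₐ[ℂ] K')} [Finite G] [Algebra (fixedField G) K]
  [IsScalarTower ℂ (fixedField G) K] [IsScalarTower (fixedField G) K K'] {n r : ℕ}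

/-- **The traces.** -/
theorem trace_ge {v : Place ℂ (fixedField G)}
    (hdiv : ∀ (P : Place ℂ K) (e : ℕ), Over P v e → Divisorial (n + 1) P) {q : ℕ} {g : Fin r → K}
    {c : ℕ} {S : Finset K} {f : K}
    (hf : ∀ P : Place ℂ K, Divisorial (n + 1) P → f = 0 ∨ ∃ i,
        (q : ℤ) * min 0 (P.ord (g i)) - c * ∑ s ∈ S, |P.ord s| ≤ P.ord f)
    {a0 Q0 : fixedField G} (ha0 : a0 ≠ 0) (hQ0 : Q0 ≠ 0) {E A : ℤ}
    (hE : ∀ (w : Place ℂ K') (e : ℕ), Over w v e → ∀ j,
      (e : ℤ) * E ≤ min 0 (w.ord (algebraMap K K' (g j))) + w.ord (a0 : K')) {B : Finset K'}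
    (hA : ∀ (w : Place ℂ K') (e : ℕ), Over w v e → ∀ b ∈ B, b ≠ 0 →
      (e : ℤ) * A ≤ w.ord (b * (Q0 : K')))
    (hBS : ∀ s ∈ S, algebraMap K K' s ∈ B ∧ algebraMap K K' s⁻¹ ∈ B) (h1 : (1 : K') ∈ B) {b : K'}
    (hb : b ∈ B) (t : fixedField G)
    (ht : (t : K') = tr G (algebraMap K K' f * (a0 : K') ^ q * (Q0 : K') ^ (c * S.card + 1) * b)) :
    Ge v (q * E + (c * S.card + 1) * A) t := by
  classical
  obtain ⟨w, e, -, hw, -, -⟩ := exists_inertia G v
  have he : (0 : ℤ) < e := by exact_mod_cast hw.1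
  have ha0' : (a0 : K') ≠ 0 := by simpa using ha0
  have hQ0' : (Q0 : K') ≠ 0 := by simpa using hQ0
  have key : Ge w ((e : ℤ) * (q * E + (c * S.card + 1) * A)) (t : K') := by
    rw [ht]
    refine tr_ge G fun g' hg' => ?_
    obtain ⟨z, hz⟩ : ∃ z, z = algebraMap K K' f * (a0 : K') ^ q *
      (Q0 : K') ^ (c * S.card + 1) * b := ⟨_, rfl⟩
    rw [← hz]
    by_cases hz0 : z = 0
    · left
      rw [hz0, map_zero]
    right
    have hw' := over_comp hw hg'
    obtain ⟨w', hw'def⟩ : ∃ w' : Place ℂ K', w' = w.comp g' := ⟨_, rfl⟩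
    rw [← hw'def] at hw'
    have hcomp : w.ord (g' z) = w'.ord z := by
      rw [hw'def, Place.comp_ord]
    rw [hcomp]
    have hb0 : b ≠ 0 := by
      rintro rfl
      exact hz0 (by rw [hz, mul_zero])
    have hf0 : f ≠ 0 := by
      rintro rfl
      exact hz0 (by rw [hz, map_zero, zero_mul, zero_mul, zero_mul])
    have hf0' : algebraMap K K' f ≠ 0 := by simpa using hf0
    obtain ⟨P, e1, e2, hP1, hP2, -⟩ := exists_restr (K := K) hw'
    obtain ⟨i, hi⟩ := (hf P (hdiv P e2 hP2)).resolve_left hf0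
    -- the inequality at `w'`
    have he1 : (0 : ℤ) ≤ e1 := Int.natCast_nonneg _
    have h2 := mul_le_mul_of_nonneg_left hi he1
    rw [← hP1.2 f] at h2
    have h3 : (e1 : ℤ) * (q * min 0 (P.ord (g i)) - c * ∑ s ∈ S, |P.ord s|) =
        q * min 0 (w'.ord (algebraMap K K' (g i))) -
          c * ∑ s ∈ S, |w'.ord (algebraMap K K' s)| := by
      have h4 : ∀ s, |w'.ord (algebraMap K K' s)| = e1 * |P.ord s| := by
        intro s
        rw [hP1.2, abs_mul, abs_of_nonneg he1]
      simp only [h4]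
      rw [← Finset.mul_sum, hP1.2]
      have h5 : min 0 ((e1 : ℤ) * P.ord (g i)) = e1 * min 0 (P.ord (g i)) := by
        rw [mul_min_of_nonneg _ _ he1, mul_zero]
      rw [h5]
      ring
    rw [h3] at h2
    have hEi := hE w' e hw' i
    have hQ1 : (e : ℤ) * A ≤ w'.ord (Q0 : K') := by
      have := hA w' e hw' 1 h1 one_ne_zero
      rwa [one_mul] at this
    have hSs : ∀ s ∈ S, |w'.ord (algebraMap K K' s)| ≤ w'.ord (Q0 : K') - e * A := by
      intro s hs
      by_cases hs0 : s = 0
      · rw [hs0, map_zero, w'.ord_zero, abs_zero]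
        linarith
      have hs0' : algebraMap K K' s ≠ 0 := by simpa using hs0
      have hs0'' : algebraMap K K' s⁻¹ ≠ 0 := by simpa using hs0
      have h6 := hA w' e hw' _ (hBS s hs).1 hs0'
      have h7 := hA w' e hw' _ (hBS s hs).2 hs0''
      rw [w'.ord_mul hs0' hQ0'] at h6
      rw [w'.ord_mul hs0'' hQ0', map_inv₀, w'.ord_inv] at h7
      rw [abs_le]
      constructor <;> linarith
    have hsum : ∑ s ∈ S, |w'.ord (algebraMap K K' s)| ≤ S.card * (w'.ord (Q0 : K') - e * A) := by
      refine (Finset.sum_le_sum hSs).trans (le_of_eq ?_)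
      rw [Finset.sum_const, nsmul_eq_mul]
    have hbb := hA w' e hw' b hb hb0
    rw [w'.ord_mul hb0 hQ0'] at hbb
    have hord : w'.ord z = w'.ord (algebraMap K K' f) + q * w'.ord (a0 : K') +
        (c * S.card + 1) * w'.ord (Q0 : K') + w'.ord b := by
      rw [hz, w'.ord_mul (mul_ne_zero (mul_ne_zero hf0' (pow_ne_zero _ ha0'))
        (pow_ne_zero _ hQ0')) hb0, w'.ord_mul (mul_ne_zero hf0' (pow_ne_zero _ ha0'))
        (pow_ne_zero _ hQ0'), w'.ord_mul hf0' (pow_ne_zero _ ha0'), w'.ord_pow, w'.ord_pow]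
      push_cast
      ring
    rw [hord]
    have hc0 : (0 : ℤ) ≤ c := Int.natCast_nonneg _
    have hq0 : (0 : ℤ) ≤ q := Int.natCast_nonneg _
    have h8 := mul_le_mul_of_nonneg_left hsum hc0
    have h9 := mul_le_mul_of_nonneg_left hEi hq0
    nlinarith
  rcases key with h | h
  · left
    simpa using h
  · right
    have h2 : w.ord (t : K') = e * v.ord t := hw.2 t
    rw [h2] at h
    exact le_of_mul_le_mul_left h he

end trace

section count

variable {n : ℕ}

/-- the exponents -/
noncomputable def exps (B1 : Finset (Fin (n + 1))) (d1 d2 : ℕ) : Finset (Fin (n + 1) →₀ ℕ) := by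
  classical
  exact (Fintype.piFinset fun b : Fin (n + 1) =>
    Finset.range ((if b ∈ B1 then d1 else d2) + 1)).map (Finsupp.equivFunOnFinite.symm.toEmbedding)

theorem mem_exps {B1 : Finset (Fin (n + 1))} {d1 d2 : ℕ} {m : Fin (n + 1) →₀ ℕ}
    (h : ∀ b, (b ∈ B1 → m b ≤ d1) ∧ (b ∉ B1 → m b ≤ d2)) : m ∈ exps B1 d1 d2 := by
  classical
  unfold exps
  rw [Finset.mem_map]
  refine ⟨fun b => m b, ?_, ?_⟩
  · rw [Fintype.mem_piFinset]
    intro b
    rw [Finset.mem_range]
    split_ifs with hb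
    · have := (h b).1 hb
      omega
    · have := (h b).2 hb
      omega
  · ext b
    rfl

theorem card_exps (B1 : Finset (Fin (n + 1))) (d1 d2 : ℕ) :
    (exps B1 d1 d2).card = (d1 + 1) ^ B1.card * (d2 + 1) ^ (n + 1 - B1.card) := by
  classical
  unfold exps
  rw [Finset.card_map, Fintype.card_piFinset]
  have h1 : ∀ b : Fin (n + 1), (Finset.range ((if b ∈ B1 then d1 else d2) + 1)).card =
      if b ∈ B1 then d1 + 1 else d2 + 1 := by
    intro b
    rw [Finset.card_range]
    split_ifs <;> rfl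
  simp only [h1]
  rw [Finset.prod_ite, Finset.prod_const, Finset.prod_const]
  congr 2
  · congr 1
    ext b
    simp
  · have h2 : (Finset.univ.filter fun b : Fin (n + 1) => b ∉ B1) = B1ᶜ := by
      ext b
      simp
    rw [h2, Finset.card_compl, Fintype.card_fin]

theorem count {B1 : Finset (Fin (n + 1))} {d1 d2 R M : ℕ}
    {P : Fin M → Fin R → MvPolynomial (Fin (n + 1)) ℂ} (hP : LinearIndependent ℂ P)
    (hdeg : ∀ l i, ∀ m ∈ (P l i).support, m ∈ exps B1 d1 d2) :
    M ≤ R * ((d1 + 1) ^ B1.card * (d2 + 1) ^ (n + 1 - B1.card)) := by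
  classical
  let V : Fin M → (Fin R × exps B1 d1 d2 → ℂ) := fun l p => coeff p.2.1 (P l p.1)
  have hV : LinearIndependent ℂ V := by
    rw [Fintype.linearIndependent_iff] at hP ⊢
    intro c hc l
    refine hP c ?_ l
    funext i
    rw [Finset.sum_apply]
    ext m
    rw [Pi.zero_apply, coeff_zero, coeff_sum]
    by_cases hm : m ∈ exps B1 d1 d2
    · have h1 := congrFun hc (i, ⟨m, hm⟩)
      rw [Finset.sum_apply] at h1
      simp only [Pi.smul_apply, coeff_smul]
      exact h1
    · refine Finset.sum_eq_zero fun l _ => ?_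
      rw [Pi.smul_apply, coeff_smul]
      have h2 : coeff m (P l i) = 0 := by
        by_contra h3
        exact hm (hdeg l i m (mem_support_iff.2 h3))
      rw [h2, smul_zero]
  have h1 := hV.fintype_card_le_finrank
  rw [Module.finrank_fintype_fun_eq_card, Fintype.card_prod, Fintype.card_fin, Fintype.card_fin,
    Fintype.card_coe, card_exps] at h1
  exact h1

end count

end Pool.Agent.Q210.AB
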