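import Pool.Agent.Q41.AB.Stm2
import Pool.Agent.Q41.RC.Nz

/-!
# The order of a form at a place
-/

set_option autoImplicit false

open FF MvPolynomial Pool.Agent.W603.LV Pool.Agent.Q41.RC
open Pool.Agent.W602.GT (ord_prod')

namespace Pool.Agent.Q210.AB

open Pool.Agent.Q41.AB

section aux

variable {k K ρ σ κ : Type} [Field k] [Field K] [Algebra k K] [Fintype ρ] [Fintype σ] [Fintype κ]

/-- the multipliers -/
def mulIdeal (I : Ideal (MvPolynomial σ k)) (T : MvPolynomial σ k) : Ideal (MvPolynomial σ k) where
  carrier := {g | g * T ∈ I}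
  add_mem' := by
    intro a b ha hb
    change (a + b) * T ∈ I
    rw [add_mul]
    exact I.add_mem ha hb
  zero_mem' := by
    change (0 : MvPolynomial σ k) * T ∈ I
    rw [zero_mul]
    exact I.zero_mem
  smul_mem' := by
    intro c x hx
    change (c • x) * T ∈ I
    rw [smul_eq_mul, mul_assoc]
    exact I.mul_mem_left c hx

/-- the centre of the place -/
def centre (P : Place k K) (u : σ → K) (hu : ∀ i, P.Reg (u i)) : Ideal (MvPolynomial σ k) where
  carrier := {g | Ge P 1 (aeval u g)}
  add_mem' := by
    intro a b ha hb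
    change Ge P 1 (aeval u (a + b))
    rw [map_add]
    exact Ge.add ha hb
  zero_mem' := by
    change Ge P 1 (aeval u (0 : MvPolynomial σ k))
    rw [map_zero]
    exact Ge.zero
  smul_mem' := by
    classical
    intro c x hx
    change Ge P 1 (aeval u (c • x))
    rw [smul_eq_mul, map_mul]
    have h := (show Ge P 0 (aeval u c) from reg_aevalK hu c).mul (show Ge P 1 (aeval u x) from hx)
    simpa using h

lemma ge_of_MI {P : Place k K} {u : σ → K} (hu : ∀ i, P.Reg (u i)) {F : κ → MvPolynomial σ k}
    {v : κ → ℕ} (hF0 : ∀ c, aeval u (F c) ≠ 0) (hFv : ∀ c, P.ord (aeval u (F c)) = v c) {r : ℕ}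
    {g : MvPolynomial σ k} (hg : g ∈ MI F {a | r ≤ wt v a}) : Ge P r (aeval u g) := by
  classical
  unfold MI at hg
  induction hg using Submodule.span_induction with
  | mem x hx =>
    obtain ⟨a, ha, rfl⟩ := hx
    right
    rw [map_prod, ord_prod' P Finset.univ _ fun c _ => by
      rw [map_pow]; exact pow_ne_zero _ (hF0 c)]
    have h1 : ∀ c, P.ord (aeval u (F c ^ a c)) = (a c * v c : ℕ) := by
      intro c
      rw [map_pow, P.ord_pow, hFv]
      push_cast
      ring
    rw [Finset.sum_congr rfl fun c _ => h1 c]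
    have h2 : r ≤ wt v a := ha
    unfold wt at h2
    exact_mod_cast h2
  | zero => rw [map_zero]; exact Ge.zero
  | add x y _ _ hx hy => rw [map_add]; exact hx.add hy
  | smul c x _ hx =>
    rw [smul_eq_mul, map_mul]
    have h := (show Ge P 0 (aeval u c) from reg_aevalK hu c).mul hx
    simpa using h

end aux

theorem low : S_Low := by
  intro k K ρ σ κ _ _ _ _ _ _ _ P pr δ F hF y α v hd D T hT r hr
  classical
  by_cases h0 : aeval y T = 0
  · exact Or.inl h0
  right
  obtain ⟨j, u, hj1, hj2, hyu, hu0, hu1, hureg, hFu, hFv⟩ := hd.norm hF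
  have hTy : aeval y T = (∏ l, y (j l) ^ D l) * aeval u T := by
    rw [← hT.scale (fun l => y (j l)) u]
    congr 2
    funext i
    exact hyu i
  have hTu0 : aeval u T ≠ 0 := by
    intro h1
    apply h0
    rw [hTy, h1, mul_zero]
  have key : Ge P r (aeval u T) := by
    by_cases hle : mulIdeal (MI F {a | r ≤ wt v a}) T ≤ centre P u hureg
    · exfalso
      -- a zero of the centre
      obtain ⟨q, hq⟩ : ∃ q : σ → k, q ∈ zeroLocus k (centre P u hureg) := by
        by_contra hcon
        push Not at hcon
        have h1 : (1 : MvPolynomial σ k) ∈ vanishingIdeal k (zeroLocus k (centre P u hureg)) := by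
          rw [mem_vanishingIdeal_iff]
          intro x hx
          exact absurd hx (hcon x)
        rw [vanishingIdeal_zeroLocus_eq_radical] at h1
        obtain ⟨n, hn⟩ := h1
        rw [one_pow] at hn
        have h2 : Ge P 1 (aeval u (1 : MvPolynomial σ k)) := hn
        rw [map_one] at h2
        exact ge_one_absurd P h2
      rw [mem_zeroLocus_iff] at hq
      have hq1 : ∀ l, q (j l) = 1 := by
        intro l
        have h1 : (X (j l) - 1 : MvPolynomial σ k) ∈ centre P u hureg := by
          change Ge P 1 (aeval u (X (j l) - 1 : MvPolynomial σ k))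
          left
          rw [map_sub, aeval_X, map_one, hu1, sub_self]
        have h2 := hq _ h1
        rw [map_sub, aeval_X, map_one] at h2
        exact sub_eq_zero.1 h2
      have hpt : Pool.Agent.Q41.RC.IsPt pr q := fun l => ⟨j l, hj1 l, by rw [hq1]; exact one_ne_zero⟩
      have hFq : ∀ c, v c ≠ 0 → eval q (F c) = 0 := by
        intro c hc
        have h1 : F c ∈ centre P u hureg := by
          change Ge P 1 (aeval u (F c))
          right
          rw [hFv]
          omega
        exact hq _ h1
      obtain ⟨g, hg, hgT⟩ := hr q hpt hFq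
      have h1 : g ∈ mulIdeal (MI F {a | r ≤ wt v a}) T := hgT
      exact hg (hq _ (hle h1))
    · rw [SetLike.not_le_iff_exists] at hle
      obtain ⟨g, hg, hgp⟩ := hle
      have hgp' : ¬ Ge P 1 (aeval u g) := hgp
      unfold Ge at hgp'
      push Not at hgp'
      have h1 := (reg_aevalK hureg g).resolve_left hgp'.1
      have h2 := ge_of_MI hureg hFu hFv (show g * T ∈ MI F {a | r ≤ wt v a} from hg)
      rw [map_mul] at h2
      rcases h2 with h2 | h2
      · exact absurd h2 (mul_ne_zero hgp'.1 hTu0)
      · right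
        rw [P.ord_mul hgp'.1 hTu0] at h2
        omega
  have h1 := key.resolve_left hTu0
  rw [hTy, P.ord_mul (Finset.prod_ne_zero_iff.2 fun l _ => pow_ne_zero _ (hd.hy _)) hTu0,
    ord_prod' P Finset.univ _ fun l _ => pow_ne_zero _ (hd.hy _)]
  have h2 : ∑ l, P.ord (y (j l) ^ D l) = ∑ l, (D l : ℤ) * α l :=
    Finset.sum_congr rfl fun l _ => by rw [P.ord_pow, hj2]
  rw [h2]
  linarith

end Pool.Agent.Q210.AB
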