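import Pool.Agent.Q41.AB.Stm2
import Pool.Agent.Q41.RC.Nz
import Pool.Agent.Y169.CH.Ram

/-!
# The ramification indices
-/

set_option autoImplicit false

open FF MvPolynomial IntermediateField Pool.Agent.W603.LV Pool.Agent.Q41.RC
open Pool.Agent.W602.GT Pool.Agent.W619.PQ Pool.Agent.TH122.AB Pool.Agent.Y169.CH

namespace Pool.Agent.Q210.AB

open Pool.Agent.Q41.AB

theorem ram : S_Ram := by
  intro K ρ σ κ J _ _ _ _ _ _ pr o δ F m a y z hcov n ε hε G _ X hX hXy v
  classical
  obtain ⟨w, e, I, hwv, hIe, hI⟩ := exists_inertia G v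
  refine ⟨w, e, hwv, ?_⟩
  intro α v' hd
  have he0 : (e : ℤ) ≠ 0 := by
    have := hwv.1
    omega
  -- the coordinates in the fixed field
  have hex : ∀ i, ∃ Y : fixedField G, algebraMap (fixedField G) K Y = y i := by
    intro i
    rcases hi : ε.symm i with l | b
    · refine ⟨1, ?_⟩
      have h1 : i = o l := by rw [← hε, ← hi, Equiv.apply_symm_apply]
      rw [map_one, h1, hcov.hy]
    · refine ⟨X b, ?_⟩
      have h1 : i = ε (Sum.inr b) := by rw [← hi, Equiv.apply_symm_apply]
      rw [h1]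
      exact hXy b
  choose Y hY using hex
  have hYy : ∀ i, w.ord (y i) = e * v.ord (Y i) := by
    intro i
    rw [← hY]
    exact hwv.2 (Y i)
  have hFY : ∀ c, algebraMap (fixedField G) K (aeval Y (F c)) = aeval y (F c) := by
    intro c
    have h1 : y = fun i => algebraMap (fixedField G) K (Y i) := funext fun i => (hY i).symm
    conv_rhs => rw [h1]
    exact (MvPolynomial.aeval_algebraMap_apply K Y (F c)).symm
  have hFYo : ∀ c, w.ord (aeval y (F c)) = e * v.ord (aeval Y (F c)) := by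
    intro c
    rw [← hFY]
    exact hwv.2 _
  have hFY0 : ∀ c, (aeval Y (F c) : fixedField G) ≠ 0 := by
    intro c h0
    apply hcov.hFy c
    rw [← hFY, h0, map_zero]
  choose i hi1 hi2 using hd.ha2
  have hα : ∀ l, α l = e * v.ord (Y (i l)) := fun l => by rw [← hi2, hYy]
  have hμ : ∀ c, (v' c : ℤ) = e * (v.ord (aeval Y (F c)) - ∑ l, (δ c l : ℤ) * v.ord (Y (i l))) := by
    intro c
    have h1 := hd.hv c
    rw [hFYo] at h1
    have h2 : ∑ l, (δ c l : ℤ) * α l = e * ∑ l, (δ c l : ℤ) * v.ord (Y (i l)) := by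
      rw [Finset.mul_sum]
      refine Finset.sum_congr rfl fun l _ => ?_
      rw [hα]
      ring
    rw [h2] at h1
    rw [mul_sub]
    linarith
  have hμ0 : ∀ c, 0 ≤ v.ord (aeval Y (F c)) - ∑ l, (δ c l : ℤ) * v.ord (Y (i l)) := by
    intro c
    have h1 := hμ c
    have h2 : (0 : ℤ) < e := by exact_mod_cast hwv.1
    by_contra hcon
    push Not at hcon
    have h3 := mul_neg_of_pos_of_neg h2 hcon
    rw [← h1] at h3
    omega
  choose lam hlam using fun c => Int.eq_ofNat_of_zero_le (hμ0 c)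
  refine ⟨lam, fun c => ?_, ?_⟩
  · have h1 := hμ c
    rw [hlam] at h1
    exact_mod_cast h1
  intro N hN
  have hz0 : ∀ j, z j ≠ 0 := by
    intro j h0
    have h1 := hcov.hz j
    rw [h0, zero_pow (hcov.hm j).ne'] at h1
    exact Finset.prod_ne_zero_iff.2 (fun c _ => pow_ne_zero _ (hcov.hFy c)) h1.symm
  have h1w : Over (w.comp (1 : K ≃ₐ[ℂ] K)) w 1 := by
    refine ⟨one_pos, fun f => ?_⟩
    rw [Nat.cast_one, one_mul]
    rfl
  refine ram_dvd (K := K) (K' := K) hwv hI hIe (g := 1) (G.one_mem) (P := w) (e1 := 1) (e2 := e)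
    h1w (one_mul e).symm z m hcov.hm hz0 (fun j => ∏ c, aeval Y (F c) ^ a j c) ?_
    (S := Set.range y) hcov.hgen ?_ ?_
  · intro j
    change z j ^ m j = algebraMap (fixedField G) K (∏ c, aeval Y (F c) ^ a j c)
    rw [hcov.hz, map_prod]
    refine Finset.prod_congr rfl fun c _ => ?_
    rw [map_pow, hFY]
  · rintro s hs - x ⟨i, rfl⟩
    change s (y i) = y i
    rw [← hY]
    exact (Y i).2 ⟨s, hs⟩
  · intro j
    rw [ord_prod' v Finset.univ _ fun c _ => pow_ne_zero _ (hFY0 c)]
    have h2 : ∀ c, v.ord (aeval Y (F c)) = ∑ l, (δ c l : ℤ) * v.ord (Y (i l)) + lam c := by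
      intro c
      have := hlam c
      linarith
    have h3 : (N : ℤ) * ∑ c, v.ord ((aeval Y (F c) : fixedField G) ^ a j c) =
        (N : ℤ) * ∑ l, ((∑ c, a j c * δ c l : ℕ) : ℤ) * v.ord (Y (i l)) +
          ((N * ∑ c, a j c * lam c : ℕ) : ℤ) := by
      have h4 : ∀ c, v.ord ((aeval Y (F c) : fixedField G) ^ a j c) =
          ∑ l, ((a j c * δ c l : ℕ) : ℤ) * v.ord (Y (i l)) + ((a j c * lam c : ℕ) : ℤ) := by
        intro c
        rw [v.ord_pow, h2, mul_add, Finset.mul_sum]
        push_cast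
        congr 1
        exact Finset.sum_congr rfl fun l _ => by ring
      rw [Finset.sum_congr rfl fun c _ => h4 c, Finset.sum_add_distrib, Finset.sum_comm, mul_add]
      congr 1
      · congr 1
        refine Finset.sum_congr rfl fun l _ => ?_
        rw [← Finset.sum_mul]
        congr 1
        push_cast
        rfl
      · push_cast
        rfl
    rw [h3]
    refine dvd_add ?_ ?_
    · refine Dvd.dvd.mul_left (Finset.dvd_sum fun l _ => Dvd.dvd.mul_right ?_ _) _
      exact_mod_cast hcov.hdiv j l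
    · exact_mod_cast hN j

end Pool.Agent.Q210.AB
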